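import Pool.Agent.H83.LC.Cnt

/-!
Failures of `lcm (1, ..., p' - 1) < p * lcm (1, ..., p)` for consecutive primes `p < p'` and
squares of primes between `p` and `p'` (MP_f9dba0_nt).
-/

namespace Pool.Agent.H5.PSq

open Finset Pool.Agent.H83.LC

/-- The squares of two primes lie strictly between `p` and `p'`. -/
def Two (p p' : ℕ) : Prop := ∃ q r : ℕ, q.Prime ∧ r.Prime ∧ q < r ∧ p < q ^ 2 ∧ r ^ 2 < p'

lemma two_fail {p p' : ℕ} (h : Two p p') : p * Nat.lcmUpto p ≤ Nat.lcmUpto (p' - 1) := by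
  obtain ⟨q, r, hq, hr, hqr, h1, h2⟩ := h
  have h3 : q ^ 2 < r ^ 2 := Nat.pow_lt_pow_left hqr (by norm_num)
  have hqr0 : q * r ≠ 0 := mul_ne_zero hq.ne_zero hr.ne_zero
  have hlog : ∀ s : ℕ, s.Prime → p < s ^ 2 → s ^ 2 < p' →
      Nat.log s p + 1 ≤ Nat.log s (p' - 1) := by
    intro s hs h4 h5
    have h6 : 2 ≤ Nat.log s (p' - 1) := Nat.le_log_of_pow_le hs.one_lt (by omega)
    have h7 : Nat.log s p < 2 := by
      rcases Nat.eq_zero_or_pos p with h0 | h0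
      · rw [h0, Nat.log_zero_right]
        norm_num
      · exact Nat.log_lt_of_lt_pow h0.ne' h4
    omega
  have hdvd : Nat.lcmUpto p * (q * r) ∣ Nat.lcmUpto (p' - 1) := by
    rw [← Nat.factorization_prime_le_iff_dvd (mul_ne_zero (Nat.lcmUpto_ne_zero p) hqr0)
      (Nat.lcmUpto_ne_zero _)]
    intro s hs
    rw [Nat.factorization_mul (Nat.lcmUpto_ne_zero p) hqr0, Finsupp.add_apply,
      Nat.factorization_mul hq.ne_zero hr.ne_zero, Finsupp.add_apply, hq.factorization,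
      hr.factorization, Nat.factorization_lcmUpto _ hs, Nat.factorization_lcmUpto _ hs,
      Finsupp.single_apply, Finsupp.single_apply]
    have hmono : Nat.log s p ≤ Nat.log s (p' - 1) := Nat.log_mono_right (by omega)
    by_cases hsq : q = s
    · have hsr : ¬ r = s := by omega
      rw [if_pos hsq, if_neg hsr]
      have := hlog q hq h1 (by omega)
      rw [hsq] at this
      omega
    · by_cases hsr : r = s
      · rw [if_neg hsq, if_pos hsr]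
        have := hlog r hr (by omega) h2
        rw [hsr] at this
        omega
      · rw [if_neg hsq, if_neg hsr]
        omega
  have hle := Nat.le_of_dvd (Nat.pos_of_ne_zero (Nat.lcmUpto_ne_zero _)) hdvd
  have hpq : p ≤ q * r := by
    have : p < q * r := by nlinarith
    exact this.le
  calc p * Nat.lcmUpto p = Nat.lcmUpto p * p := Nat.mul_comm _ _
    _ ≤ Nat.lcmUpto p * (q * r) := Nat.mul_le_mul_left _ hpq
    _ ≤ _ := hle

lemma exists_four {p p' : ℕ} (hp : 32 ≤ p) (hpp : p < p') (hp2 : p' ≤ 2 * p)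
    (hcons : ∀ r, p < r → r < p' → ¬ r.Prime) (hgap : (p' - p) ^ 3 ≤ p ^ 2)
    (hfail : p * Nat.lcmUpto p ≤ Nat.lcmUpto (p' - 1)) (hno : ¬ Two p p') :
    ∃ q a : ℕ, q.Prime ∧ 4 ≤ a ∧ p < q ^ a ∧ q ^ a < p' := by
  by_contra hcon
  push Not at hcon
  have hsmall : ∀ q ∈ S p (p' - 1), Nat.log q (p' - 1) ≤ 3 := by
    intro q hq
    by_contra h
    push Not at h
    obtain ⟨h1, h2, h3⟩ := pow_mem (by omega) hpp hcons hq
    have h4 := hcon q (Nat.log q (p' - 1)) (mem_S.1 hq).2.1 (by omega) h1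
    omega
  set A := (S p (p' - 1)).filter (fun q => Nat.log q (p' - 1) ≠ 3) with hA
  set B := (S p (p' - 1)).filter (fun q => ¬ Nat.log q (p' - 1) ≠ 3) with hB
  have hprod : (∏ q ∈ A, q) * (∏ q ∈ B, q) = ∏ q ∈ S p (p' - 1), q :=
    prod_filter_mul_prod_filter_not _ _ _
  have hAm : ∀ q ∈ A, q.Prime ∧ p < q ^ 2 ∧ q ^ 2 < p' := by
    intro q hq
    rw [hA, mem_filter] at hq
    obtain ⟨h1, h2, h3⟩ := pow_mem (by omega) hpp hcons hq.1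
    have h4 := hsmall q hq.1
    have h5 : Nat.log q (p' - 1) = 2 := by
      have := hq.2
      omega
    rw [h5] at h1 h2
    exact ⟨(mem_S.1 hq.1).2.1, h1, h2⟩
  have hBm : ∀ q ∈ B, q.Prime ∧ p < q ^ 3 ∧ q ^ 3 < p' := by
    intro q hq
    rw [hB, mem_filter, not_not] at hq
    obtain ⟨h1, h2, h3⟩ := pow_mem (by omega) hpp hcons hq.1
    rw [hq.2] at h1 h2
    exact ⟨(mem_S.1 hq.1).2.1, h1, h2⟩
  have hA2 : (∏ q ∈ A, q) ^ 2 < p' := by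
    refine prod_pow_lt (by omega) ?_ (fun q hq => (hAm q hq).2.2)
    intro q hq r hr
    obtain ⟨a1, a2, a3⟩ := hAm q hq
    obtain ⟨b1, b2, b3⟩ := hAm r hr
    rcases lt_trichotomy q r with h | h | h
    · exact absurd ⟨q, r, a1, b1, h, a2, b3⟩ hno
    · exact h
    · exact absurd ⟨r, q, b1, a1, h, b2, a3⟩ hno
  have hcube : ∀ q r : ℕ, q < r → p < q ^ 3 → r ^ 3 < p' → False := by
    intro q r hqr h1 h2
    have h3 : (q + 1) ^ 3 ≤ r ^ 3 := Nat.pow_le_pow_left hqr 3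
    have h4 : (q + 1) ^ 3 = q ^ 3 + 3 * q ^ 2 + 3 * q + 1 := by ring
    have h5 : q ^ 2 ≤ p' - p := by omega
    have h6 : (q ^ 2) ^ 3 ≤ (p' - p) ^ 3 := Nat.pow_le_pow_left h5 3
    have h7 : (q ^ 2) ^ 3 = (q ^ 3) ^ 2 := by ring
    have h8 : p ^ 2 < (q ^ 3) ^ 2 := Nat.pow_lt_pow_left h1 (by norm_num)
    omega
  have hB3 : (∏ q ∈ B, q) ^ 3 < p' := by
    refine prod_pow_lt (by omega) ?_ (fun q hq => (hBm q hq).2.2)
    intro q hq r hr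
    obtain ⟨a1, a2, a3⟩ := hBm q hq
    obtain ⟨b1, b2, b3⟩ := hBm r hr
    rcases lt_trichotomy q r with h | h | h
    · exact (hcube q r h a2 b3).elim
    · exact h
    · exact (hcube r q h b2 a3).elim
  have hle : p ≤ ∏ q ∈ S p (p' - 1), q := by
    have h1 := hfail.trans (lcm_le (p := p) (m := p' - 1) (by omega))
    have h2 := Nat.lcmUpto_pos p
    rw [mul_comm] at h1
    exact Nat.le_of_mul_le_mul_left h1 h2
  rw [← hprod] at hle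
  generalize ∏ q ∈ A, q = x at *
  generalize ∏ q ∈ B, q = y at *
  have h1 : p ^ 6 ≤ (x * y) ^ 6 := Nat.pow_le_pow_left hle 6
  have h2 : (x * y) ^ 6 = (x ^ 2) ^ 3 * (y ^ 3) ^ 2 := by ring
  have h3 : (x ^ 2) ^ 3 < p' ^ 3 := Nat.pow_lt_pow_left hA2 (by norm_num)
  have h4 : (y ^ 3) ^ 2 < p' ^ 2 := Nat.pow_lt_pow_left hB3 (by norm_num)
  have h5 : (x ^ 2) ^ 3 * (y ^ 3) ^ 2 < p' ^ 3 * p' ^ 2 := Nat.mul_lt_mul'' h3 h4
  have h6 : p' ^ 3 * p' ^ 2 ≤ (2 * p) ^ 5 := by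
    calc p' ^ 3 * p' ^ 2 = p' ^ 5 := by ring
      _ ≤ (2 * p) ^ 5 := Nat.pow_le_pow_left hp2 5
  have h7 : (2 * p) ^ 5 ≤ p ^ 6 := by
    calc (2 * p) ^ 5 = 32 * p ^ 5 := by ring
      _ ≤ p * p ^ 5 := Nat.mul_le_mul_right _ hp
      _ = p ^ 6 := by ring
  omega

/-- The inequality fails for `k` but there are no two squares of primes in the gap, or conversely. -/
def Bad (k : ℕ) : Prop :=
  ¬ (Nat.nth Nat.Prime k * Nat.lcmUpto (Nat.nth Nat.Prime k) ≤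
      Nat.lcmUpto (Nat.nth Nat.Prime (k + 1) - 1) ↔
    Two (Nat.nth Nat.Prime k) (Nat.nth Nat.Prime (k + 1)))

lemma bad_iff {k : ℕ} (h : Bad k) : (Nat.nth Nat.Prime k * Nat.lcmUpto (Nat.nth Nat.Prime k) ≤
      Nat.lcmUpto (Nat.nth Nat.Prime (k + 1) - 1)) ∧
    ¬ Two (Nat.nth Nat.Prime k) (Nat.nth Nat.Prime (k + 1)) := by
  unfold Bad at h
  have h1 := two_fail (p := Nat.nth Nat.Prime k) (p' := Nat.nth Nat.Prime (k + 1))
  tauto

lemma bad_four {k : ℕ} (h : Bad k)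
    (hgap : (Nat.nth Nat.Prime (k + 1) - Nat.nth Nat.Prime k) ^ 3 ≤ Nat.nth Nat.Prime k ^ 2) :
    ∃ q a : ℕ, q.Prime ∧ 4 ≤ a ∧ Nat.nth Nat.Prime k < q ^ a ∧
      q ^ a < Nat.nth Nat.Prime (k + 1) := by
  obtain ⟨h3, h4⟩ := bad_iff h
  have hp := Nat.prime_nth_prime k
  have hp' := Nat.prime_nth_prime (k + 1)
  have hlt : Nat.nth Nat.Prime k < Nat.nth Nat.Prime (k + 1) :=
    Nat.nth_strictMono Nat.infinite_setOfPred_prime (Nat.lt_succ_self k)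
  have hge : 32 ≤ Nat.nth Nat.Prime k := by
    by_contra h
    push Not at h
    have := small hp h hp' hlt (nth_cons k)
    omega
  exact exists_four hge hlt (nth_le_two_mul k) (nth_cons k) hgap h3 h4

/-- Gaps with a prime power of exponent at least `4`. -/
lemma card_four (x Y : ℕ) (hY : ∀ n : ℕ, n ^ 4 ≤ 2 * x → n ≤ Y) (K : Set ℕ)
    (hK : ∀ k ∈ K, Nat.nth Nat.Prime k ≤ x ∧ ∃ q a : ℕ, q.Prime ∧ 4 ≤ a ∧
      Nat.nth Nat.Prime k < q ^ a ∧ q ^ a < Nat.nth Nat.Prime (k + 1)) :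
    K.ncard ≤ 4 * Y := by
  classical
  have hch : ∀ k : ℕ, ∃ w : ℕ × ℕ, k ∈ K → w.1.Prime ∧ 4 ≤ w.2 ∧
      Nat.nth Nat.Prime k < w.1 ^ w.2 ∧ w.1 ^ w.2 < Nat.nth Nat.Prime (k + 1) := by
    intro k
    by_cases hk : k ∈ K
    · obtain ⟨q, a, h⟩ := (hK k hk).2
      exact ⟨(q, a), fun _ => h⟩
    · exact ⟨(0, 0), fun h => absurd h hk⟩
  choose w hw using hch
  have hmono := Nat.nth_strictMono Nat.infinite_setOfPred_prime
  have hcard : (((Finset.Icc 1 Y) ×ˢ (Finset.range 4) : Finset (ℕ × ℕ)) : Set (ℕ × ℕ)).ncard =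
      4 * Y := by
    rw [Set.ncard_coe_finset, Finset.card_product, Nat.card_Icc, Finset.card_range]
    omega
  rw [← hcard]
  refine Set.ncard_le_ncard_of_injOn (fun k => ((w k).1 ^ ((w k).2 / 4), (w k).2 % 4)) ?_ ?_
    (Finset.finite_toSet _)
  · intro k hk
    obtain ⟨h1, h2, h3, h4⟩ := hw k hk
    rw [Finset.mem_coe, Finset.mem_product, Finset.mem_Icc, Finset.mem_range]
    refine ⟨⟨Nat.one_le_pow _ _ h1.pos, ?_⟩, Nat.mod_lt _ (by norm_num)⟩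
    apply hY
    rw [← pow_mul]
    have h5 : (w k).1 ^ ((w k).2 / 4 * 4) ≤ (w k).1 ^ (w k).2 :=
      Nat.pow_le_pow_right h1.pos (Nat.div_mul_le_self _ _)
    have h6 := nth_le_two_mul k
    have h7 := (hK k hk).1
    omega
  · intro k hk l hl hkl
    obtain ⟨h1, h2, h3, h4⟩ := hw k hk
    obtain ⟨g1, g2, g3, g4⟩ := hw l hl
    simp only [Prod.mk.injEq] at hkl
    obtain ⟨e1, e2⟩ := hkl
    have hq : (w k).1 = (w l).1 := by
      have hd : (w k).1 ∣ (w l).1 ^ ((w l).2 / 4) := by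
        rw [← e1]
        exact dvd_pow_self _ (by omega)
      exact (Nat.prime_dvd_prime_iff_eq h1 g1).1 (h1.dvd_of_dvd_pow hd)
    have he : (w k).2 / 4 = (w l).2 / 4 := by
      rw [hq] at e1
      exact Nat.pow_right_injective g1.two_le e1
    have ha : (w k).2 = (w l).2 := by omega
    rw [hq, ha] at h3 h4
    rcases lt_trichotomy k l with h | h | h
    · have h5 : Nat.nth Nat.Prime (k + 1) ≤ Nat.nth Nat.Prime l := hmono.monotone h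
      omega
    · exact h
    · have h5 : Nat.nth Nat.Prime (l + 1) ≤ Nat.nth Nat.Prime k := hmono.monotone h
      omega

lemma exists_cube {p p' : ℕ} (hpp : p < p') (hgap : p ^ 2 < (p' - p) ^ 3) :
    ∃ n : ℕ, 64 * p < n ^ 3 ∧ n ^ 3 < 64 * p' := by
  classical
  have hex : ∃ n : ℕ, 64 * p < n ^ 3 := ⟨64 * p + 1, by nlinarith [Nat.zero_le (64 * p)]⟩
  refine ⟨Nat.find hex, Nat.find_spec hex, ?_⟩
  have hpos : Nat.find hex ≠ 0 := by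
    intro h
    have := Nat.find_spec hex
    rw [h] at this
    omega
  obtain ⟨m, hm⟩ : ∃ m, Nat.find hex = m + 1 := Nat.exists_eq_succ_of_ne_zero hpos
  have hm1 : m ^ 3 ≤ 64 * p := by
    have := Nat.find_min hex (m := m) (by omega)
    omega
  rw [hm]
  obtain ⟨g, hg⟩ : ∃ g, p' = p + g := ⟨p' - p, by omega⟩
  subst hg
  rw [Nat.add_sub_cancel_left] at hgap
  have h1 : (m ^ 2) ^ 3 < (16 * g) ^ 3 := by
    calc (m ^ 2) ^ 3 = (m ^ 3) ^ 2 := by ring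
      _ ≤ (64 * p) ^ 2 := Nat.pow_le_pow_left hm1 2
      _ = 4096 * p ^ 2 := by ring
      _ < 4096 * g ^ 3 := by omega
      _ = (16 * g) ^ 3 := by ring
  have h2 : m ^ 2 < 16 * g := lt_of_pow_lt_pow_left₀ 3 (Nat.zero_le _) h1
  have h3 : (m + 1) ^ 3 = m ^ 3 + (3 * m ^ 2 + 3 * m + 1) := by ring
  have h4 : 3 * m + 1 < m ^ 2 + 4 := by nlinarith [sq_nonneg ((m : ℤ) - 2), Nat.zero_le m]
  omega

lemma card_long (x Y : ℕ) (hY : ∀ n : ℕ, n ^ 3 ≤ 128 * x → n ≤ Y) :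
    ({k : ℕ | Nat.nth Nat.Prime k ≤ x ∧ Nat.nth Nat.Prime k ^ 2 <
      (Nat.nth Nat.Prime (k + 1) - Nat.nth Nat.Prime k) ^ 3}).ncard ≤ Y := by
  classical
  set K : Set ℕ := {k : ℕ | Nat.nth Nat.Prime k ≤ x ∧ Nat.nth Nat.Prime k ^ 2 <
      (Nat.nth Nat.Prime (k + 1) - Nat.nth Nat.Prime k) ^ 3} with hKdef
  have hmono := Nat.nth_strictMono Nat.infinite_setOfPred_prime
  have hch : ∀ k : ℕ, ∃ n : ℕ, k ∈ K → 64 * Nat.nth Nat.Prime k < n ^ 3 ∧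
      n ^ 3 < 64 * Nat.nth Nat.Prime (k + 1) := by
    intro k
    by_cases hk : k ∈ K
    · obtain ⟨n, h⟩ := exists_cube (hmono (Nat.lt_succ_self k)) hk.2
      exact ⟨n, fun _ => h⟩
    · exact ⟨0, fun h => absurd h hk⟩
  choose w hw using hch
  have hcard : ((Finset.Icc 1 Y : Finset ℕ) : Set ℕ).ncard = Y := by
    rw [Set.ncard_coe_finset, Nat.card_Icc]
    omega
  rw [← hcard]
  refine Set.ncard_le_ncard_of_injOn w ?_ ?_ (Finset.finite_toSet _)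
  · intro k hk
    obtain ⟨h1, h2⟩ := hw k hk
    rw [Finset.mem_coe, Finset.mem_Icc]
    refine ⟨?_, ?_⟩
    · by_contra h
      have h0 : w k = 0 := by omega
      rw [h0] at h1
      omega
    · apply hY
      have h6 := nth_le_two_mul k
      have h7 := hk.1
      omega
  · intro k hk l hl hkl
    obtain ⟨h1, h2⟩ := hw k hk
    obtain ⟨g1, g2⟩ := hw l hl
    rw [hkl] at h1 h2
    rcases lt_trichotomy k l with h | h | h
    · have h5 : Nat.nth Nat.Prime (k + 1) ≤ Nat.nth Nat.Prime l := hmono.monotone h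
      omega
    · exact h
    · have h5 : Nat.nth Nat.Prime (l + 1) ≤ Nat.nth Nat.Prime k := hmono.monotone h
      omega

lemma finite_le (x : ℕ) : {k : ℕ | Nat.nth Nat.Prime k ≤ x}.Finite := by
  refine (Set.finite_Iic x).subset ?_
  intro k hk
  have hmono := Nat.nth_strictMono Nat.infinite_setOfPred_prime
  exact le_trans (hmono.id_le k) hk

lemma floor_root (e : ℕ) (he : e ≠ 0) (M : ℕ) (n : ℕ) (hn : n ^ e ≤ M) :
    n ≤ ⌊(M : ℝ) ^ (1 / (e : ℝ))⌋₊ := by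
  refine Nat.le_floor ?_
  have hM : (0 : ℝ) ≤ M := Nat.cast_nonneg M
  have h1 : (((M : ℝ) ^ (1 / (e : ℝ))) ^ e) = M := by
    rw [← Real.rpow_natCast, ← Real.rpow_mul hM]
    rw [one_div, inv_mul_cancel₀ (by exact_mod_cast he), Real.rpow_one]
  have h2 : ((n : ℝ)) ^ e ≤ ((M : ℝ) ^ (1 / (e : ℝ))) ^ e := by
    rw [h1]
    exact_mod_cast hn
  exact (pow_le_pow_iff_left₀ (Nat.cast_nonneg n) (by positivity) he).1 h2

/-- Short and medium gaps. -/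
lemma medium (x : ℕ) :
    (Set.ncard {k : ℕ | Nat.nth Nat.Prime k ≤ x ∧
      (Nat.nth Nat.Prime (k + 1) - Nat.nth Nat.Prime k) ^ 3 ≤ Nat.nth Nat.Prime k ^ 2 ∧
      Bad k} : ℝ) ≤ 4.8 * (x : ℝ) ^ (1 / 4 : ℝ) := by
  have hx : (0 : ℝ) ≤ x := Nat.cast_nonneg x
  have h1 := card_four x ⌊((2 * x : ℕ) : ℝ) ^ (1 / ((4 : ℕ) : ℝ))⌋₊
    (fun n hn => floor_root 4 (by norm_num) (2 * x) n hn)
    {k : ℕ | Nat.nth Nat.Prime k ≤ x ∧
      (Nat.nth Nat.Prime (k + 1) - Nat.nth Nat.Prime k) ^ 3 ≤ Nat.nth Nat.Prime k ^ 2 ∧ Bad k}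
    (fun k hk => ⟨hk.1, bad_four hk.2.2 hk.2.1⟩)
  have h2 : ((2 * x : ℕ) : ℝ) ^ (1 / ((4 : ℕ) : ℝ)) = (2 : ℝ) ^ (1 / 4 : ℝ) *
      (x : ℝ) ^ (1 / 4 : ℝ) := by
    push_cast
    rw [Real.mul_rpow (by norm_num) hx]
  have h3 : (2 : ℝ) ^ (1 / 4 : ℝ) ≤ 1.2 := by
    have h5 : ((2 : ℝ) ^ (1 / 4 : ℝ)) ^ 4 ≤ 1.2 ^ 4 := by
      rw [← Real.rpow_natCast, ← Real.rpow_mul (by norm_num)]
      norm_num
    exact (pow_le_pow_iff_left₀ (by positivity) (by norm_num) (by norm_num)).1 h5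
  have h4 : 0 ≤ (x : ℝ) ^ (1 / 4 : ℝ) := by positivity
  calc (Set.ncard {k : ℕ | Nat.nth Nat.Prime k ≤ x ∧
      (Nat.nth Nat.Prime (k + 1) - Nat.nth Nat.Prime k) ^ 3 ≤ Nat.nth Nat.Prime k ^ 2 ∧
      Bad k} : ℝ) ≤ ((4 * ⌊((2 * x : ℕ) : ℝ) ^ (1 / ((4 : ℕ) : ℝ))⌋₊ : ℕ) : ℝ) := by
        exact_mod_cast h1
    _ = 4 * (⌊((2 * x : ℕ) : ℝ) ^ (1 / ((4 : ℕ) : ℝ))⌋₊ : ℝ) := by push_cast; ring
    _ ≤ 4 * (((2 * x : ℕ) : ℝ) ^ (1 / ((4 : ℕ) : ℝ))) := by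
        have := Nat.floor_le (a := ((2 * x : ℕ) : ℝ) ^ (1 / ((4 : ℕ) : ℝ))) (by positivity)
        linarith
    _ = 4 * ((2 : ℝ) ^ (1 / 4 : ℝ) * (x : ℝ) ^ (1 / 4 : ℝ)) := by rw [h2]
    _ ≤ 4.8 * (x : ℝ) ^ (1 / 4 : ℝ) := by nlinarith

lemma longs (x : ℕ) :
    (({k : ℕ | Nat.nth Nat.Prime k ≤ x ∧ Nat.nth Nat.Prime k ^ 2 <
      (Nat.nth Nat.Prime (k + 1) - Nat.nth Nat.Prime k) ^ 3}).ncard : ℝ) ≤
      5.1 * (x : ℝ) ^ (1 / 3 : ℝ) := by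
  have hx : (0 : ℝ) ≤ x := Nat.cast_nonneg x
  have h1 := card_long x ⌊((128 * x : ℕ) : ℝ) ^ (1 / ((3 : ℕ) : ℝ))⌋₊
    (fun n hn => floor_root 3 (by norm_num) (128 * x) n hn)
  have h2 : ((128 * x : ℕ) : ℝ) ^ (1 / ((3 : ℕ) : ℝ)) = (128 : ℝ) ^ (1 / 3 : ℝ) *
      (x : ℝ) ^ (1 / 3 : ℝ) := by
    push_cast
    rw [Real.mul_rpow (by norm_num) hx]
  have h3 : (128 : ℝ) ^ (1 / 3 : ℝ) ≤ 5.1 := by
    have h5 : ((128 : ℝ) ^ (1 / 3 : ℝ)) ^ 3 ≤ 5.1 ^ 3 := by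
      rw [← Real.rpow_natCast, ← Real.rpow_mul (by norm_num)]
      norm_num
    exact (pow_le_pow_iff_left₀ (by positivity) (by norm_num) (by norm_num)).1 h5
  have h4 : 0 ≤ (x : ℝ) ^ (1 / 3 : ℝ) := by positivity
  calc (({k : ℕ | Nat.nth Nat.Prime k ≤ x ∧ Nat.nth Nat.Prime k ^ 2 <
      (Nat.nth Nat.Prime (k + 1) - Nat.nth Nat.Prime k) ^ 3}).ncard : ℝ)
      ≤ (⌊((128 * x : ℕ) : ℝ) ^ (1 / ((3 : ℕ) : ℝ))⌋₊ : ℝ) := by exact_mod_cast h1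
    _ ≤ ((128 * x : ℕ) : ℝ) ^ (1 / ((3 : ℕ) : ℝ)) := Nat.floor_le (by positivity)
    _ = (128 : ℝ) ^ (1 / 3 : ℝ) * (x : ℝ) ^ (1 / 3 : ℝ) := h2
    _ ≤ 5.1 * (x : ℝ) ^ (1 / 3 : ℝ) := by nlinarith

lemma allk (x : ℕ) :
    (Set.ncard {k : ℕ | Nat.nth Nat.Prime k ≤ x ∧ Bad k} : ℝ) ≤ 10 * (x : ℝ) ^ (1 / 3 : ℝ) := by
  have hsub : {k : ℕ | Nat.nth Nat.Prime k ≤ x ∧ Bad k} ⊆
      {k : ℕ | Nat.nth Nat.Prime k ≤ x ∧
        (Nat.nth Nat.Prime (k + 1) - Nat.nth Nat.Prime k) ^ 3 ≤ Nat.nth Nat.Prime k ^ 2 ∧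
        Bad k} ∪ {k : ℕ | Nat.nth Nat.Prime k ≤ x ∧ Nat.nth Nat.Prime k ^ 2 <
      (Nat.nth Nat.Prime (k + 1) - Nat.nth Nat.Prime k) ^ 3} := by
    intro k hk
    by_cases h : (Nat.nth Nat.Prime (k + 1) - Nat.nth Nat.Prime k) ^ 3 ≤ Nat.nth Nat.Prime k ^ 2
    · exact Or.inl ⟨hk.1, h, hk.2⟩
    · exact Or.inr ⟨hk.1, by omega⟩
  have hfin : ({k : ℕ | Nat.nth Nat.Prime k ≤ x ∧
        (Nat.nth Nat.Prime (k + 1) - Nat.nth Nat.Prime k) ^ 3 ≤ Nat.nth Nat.Prime k ^ 2 ∧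
        Bad k} ∪ {k : ℕ | Nat.nth Nat.Prime k ≤ x ∧ Nat.nth Nat.Prime k ^ 2 <
      (Nat.nth Nat.Prime (k + 1) - Nat.nth Nat.Prime k) ^ 3}).Finite := by
    refine (finite_le x).subset ?_
    rintro k (h | h)
    · exact h.1
    · exact h.1
  have h1 := (Set.ncard_le_ncard hsub hfin).trans (Set.ncard_union_le _ _)
  have h2 := medium x
  have h3 := longs x
  have h4 : (x : ℝ) ^ (1 / 4 : ℝ) ≤ (x : ℝ) ^ (1 / 3 : ℝ) := by
    rcases Nat.eq_zero_or_pos x with h0 | h0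
    · rw [h0]
      norm_num
    · exact Real.rpow_le_rpow_of_exponent_le (by exact_mod_cast h0) (by norm_num)
  have h5 : 0 ≤ (x : ℝ) ^ (1 / 3 : ℝ) := by positivity
  have h6 : (Set.ncard {k : ℕ | Nat.nth Nat.Prime k ≤ x ∧ Bad k} : ℝ) ≤
      (Set.ncard {k : ℕ | Nat.nth Nat.Prime k ≤ x ∧
        (Nat.nth Nat.Prime (k + 1) - Nat.nth Nat.Prime k) ^ 3 ≤ Nat.nth Nat.Prime k ^ 2 ∧
        Bad k} : ℝ) + (({k : ℕ | Nat.nth Nat.Prime k ≤ x ∧ Nat.nth Nat.Prime k ^ 2 <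
      (Nat.nth Nat.Prime (k + 1) - Nat.nth Nat.Prime k) ^ 3}).ncard : ℝ) := by
    exact_mod_cast h1
  linarith

end Pool.Agent.H5.PSq
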